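import Mathlib

set_option autoImplicit false

namespace Pool.Agent.helper55.NO

/-- choice of the constants in the dichotomy near bisection / exact bisection -/
theorem num_no (k m r n : ℕ) (s : ℝ) (hs : s = m - 2 * k) (h2k : 2 * k < m)
    (h1 : 2 ^ 30 * ((r : ℝ) + 1) * m ^ 2 ≤ s ^ 3) (h2 : m ^ 3 ≤ n) :
    ∃ a j : ℕ, 1 ≤ a ∧ a < n ∧ a + (r + 1) ≤ n + 1 ∧ 16 * (a : ℝ) ≤ s ∧
      (1 / 2 : ℝ) ^ j ≤ s / (32 * m) ∧
      2 * ((r : ℝ) + 1) * m * n / (a * a) + ((a : ℝ) - 1 + 2 * ((r : ℝ) + 1)) ≤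
        2 ^ 12 * ((r : ℝ) + 1) * m * n / s ^ 2 ∧
      (2 : ℝ) ^ j * (2 * ((r : ℝ) + 1) * m * n / (a * a) + ((a : ℝ) - 1 + 2 * ((r : ℝ) + 1))) ≤
        2 ^ 18 * ((r : ℝ) + 1) * m ^ 2 / s ^ 3 * n ∧
      4 * Real.exp (-((s / (64 * m)) ^ 2 * m)) * (8 * ((m : ℝ) ^ 3) ^ 2 + 1) ≤ 1 ∧
      (2 : ℝ) ^ 4 ≤ m := by
  have hk0 : (0 : ℝ) ≤ k := Nat.cast_nonneg k
  have hr0 : (0 : ℝ) ≤ r := Nat.cast_nonneg r
  have hs0 : 0 < s := by
    rw [hs]
    have : (2 * k : ℝ) < m := by exact_mod_cast h2k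
    linarith
  have hsm : s ≤ m := by
    rw [hs]
    linarith
  have hm0 : (0 : ℝ) < m := lt_of_lt_of_le hs0 hsm
  have hm2 : (0 : ℝ) < (m : ℝ) ^ 2 := by positivity
  have hR : (1 : ℝ) ≤ (r : ℝ) + 1 := by linarith
  set R : ℝ := (r : ℝ) + 1 with hRd
  -- size of `s`, `m`
  have h3 : 2 ^ 30 * (m : ℝ) ^ 2 ≤ s ^ 3 := by
    refine le_trans ?_ h1
    have : 2 ^ 30 * (m : ℝ) ^ 2 * 1 ≤ 2 ^ 30 * (m : ℝ) ^ 2 * R :=
      mul_le_mul_of_nonneg_left hR (by positivity)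
    linarith
  have hs30 : (2 : ℝ) ^ 30 ≤ s := by
    have h4 : 2 ^ 30 * s ^ 2 ≤ s ^ 2 * s := by
      calc 2 ^ 30 * s ^ 2 ≤ 2 ^ 30 * (m : ℝ) ^ 2 := by
            refine mul_le_mul_of_nonneg_left ?_ (by positivity)
            exact pow_le_pow_left₀ hs0.le hsm 2
        _ ≤ s ^ 3 := h3
        _ = s ^ 2 * s := by ring
    have h5 : s ^ 2 * 2 ^ 30 ≤ s ^ 2 * s := by linarith
    exact le_of_mul_le_mul_left h5 (by positivity)
  have hm30 : (2 : ℝ) ^ 30 ≤ m := hs30.trans hsm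
  have hRm : 2 ^ 30 * R ≤ m := by
    have h4 : 2 ^ 30 * R * (m : ℝ) ^ 2 ≤ (m : ℝ) * (m : ℝ) ^ 2 := by
      calc 2 ^ 30 * R * (m : ℝ) ^ 2 ≤ s ^ 3 := h1
        _ ≤ (m : ℝ) ^ 3 := pow_le_pow_left₀ hs0.le hsm 3
        _ = _ := by ring
    exact le_of_mul_le_mul_right h4 hm2
  have hn3 : (m : ℝ) ^ 3 ≤ n := by exact_mod_cast h2
  have hmn : (m : ℝ) < n := by
    have : (m : ℝ) ^ 3 = m * (m * m) := by ring
    nlinarith
  -- the choice of `a`
  set a : ℕ := ⌊s / 16⌋₊ with ha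
  have ha1 : (a : ℝ) ≤ s / 16 := Nat.floor_le (by positivity)
  have ha2 : s / 16 < (a : ℝ) + 1 := Nat.lt_floor_add_one _
  have ha3 : s / 17 ≤ (a : ℝ) := by linarith
  have ha0 : (0 : ℝ) < a := lt_of_lt_of_le (by positivity) ha3
  -- the choice of `j`
  have hex : ∃ j : ℕ, (1 / 2 : ℝ) ^ j ≤ s / (32 * m) := by
    obtain ⟨j, hj⟩ := exists_pow_lt_of_lt_one (show 0 < s / (32 * m) by positivity)
      (show (1 / 2 : ℝ) < 1 by norm_num)
    exact ⟨j, hj.le⟩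
  classical
  set j : ℕ := Nat.find hex with hj
  have hj1 : (1 / 2 : ℝ) ^ j ≤ s / (32 * m) := Nat.find_spec hex
  have hj2 : (2 : ℝ) ^ j ≤ 64 * m / s := by
    rcases Nat.eq_zero_or_pos j with h0 | hpos
    · rw [h0, pow_zero, le_div_iff₀ hs0]
      linarith
    · have h4 : ¬ (1 / 2 : ℝ) ^ (j - 1) ≤ s / (32 * m) := Nat.find_min hex (by omega)
      rw [not_le] at h4
      have h5 : (2 : ℝ) ^ (j - 1) * (1 / 2 : ℝ) ^ (j - 1) = 1 := by
        rw [← mul_pow]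
        norm_num
      have h6 : (2 : ℝ) ^ (j - 1) * (s / (32 * m)) < 1 := by
        calc (2 : ℝ) ^ (j - 1) * (s / (32 * m)) < (2 : ℝ) ^ (j - 1) * (1 / 2 : ℝ) ^ (j - 1) :=
              mul_lt_mul_of_pos_left h4 (by positivity)
          _ = 1 := h5
      have h7 : (2 : ℝ) ^ j = 2 * (2 : ℝ) ^ (j - 1) := by
        rw [← pow_succ', Nat.sub_add_cancel hpos]
      rw [h7, le_div_iff₀ hs0]
      have h8 : (2 : ℝ) ^ (j - 1) * (s / (32 * m)) = (2 : ℝ) ^ (j - 1) * s / (32 * m) := by ring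
      rw [h8, div_lt_one (by positivity)] at h6
      linarith
  -- main bound
  have hmain : 2 * R * m * n / (a * a) + ((a : ℝ) - 1 + 2 * R) ≤ 2 ^ 12 * R * m * n / s ^ 2 := by
    have h4 : 2 * R * m * n / (a * a) ≤ 578 * (R * m * n / s ^ 2) := by
      have h5 : s ^ 2 / 289 ≤ (a : ℝ) * a := by
        have := mul_le_mul ha3 ha3 (by positivity) ha0.le
        calc s ^ 2 / 289 = s / 17 * (s / 17) := by ring
          _ ≤ _ := this
      have h6 : 0 ≤ 2 * R * m * n := by positivity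
      calc 2 * R * m * n / (a * a) ≤ 2 * R * m * n / (s ^ 2 / 289) :=
            div_le_div_of_nonneg_left h6 (by positivity) h5
        _ = 578 * (R * m * n / s ^ 2) := by
            field_simp
            ring
    have h7 : R * (m : ℝ) ^ 2 ≤ R * m * n / s ^ 2 := by
      rw [le_div_iff₀ (by positivity)]
      calc R * (m : ℝ) ^ 2 * s ^ 2 ≤ R * (m : ℝ) ^ 2 * (m : ℝ) ^ 2 := by
            refine mul_le_mul_of_nonneg_left ?_ (by positivity)
            exact pow_le_pow_left₀ hs0.le hsm 2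
        _ = R * m * (m : ℝ) ^ 3 := by ring
        _ ≤ R * m * n := mul_le_mul_of_nonneg_left hn3 (by positivity)
    have h8 : (a : ℝ) - 1 + 2 * R ≤ 3 * (R * (m : ℝ) ^ 2) := by
      have h9 : (m : ℝ) ≤ (m : ℝ) ^ 2 := by nlinarith
      have h10 : (m : ℝ) ≤ R * (m : ℝ) ^ 2 := by nlinarith
      have h11 : R ≤ R * (m : ℝ) ^ 2 := by nlinarith
      linarith
    have h12 : 2 ^ 12 * R * m * n / s ^ 2 = 4096 * (R * m * n / s ^ 2) := by
      have : (2 : ℝ) ^ 12 = 4096 := by norm_num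
      rw [this]
      ring
    rw [h12]
    have h13 : 0 ≤ R * m * n / s ^ 2 := by positivity
    linarith
  refine ⟨a, j, ?_, ?_, ?_, by linarith, hj1, hmain, ?_, ?_, ?_⟩
  · have : (1 : ℝ) ≤ a := by linarith
    exact_mod_cast this
  · have : (a : ℝ) < n := by linarith
    exact_mod_cast this
  · have : (a : ℝ) + ((r : ℝ) + 1) ≤ (n : ℝ) + 1 := by
      have h4 : R ≤ m / 2 := by linarith
      linarith
    exact_mod_cast this
  · have h4 : 0 ≤ 2 ^ 12 * R * m * n / s ^ 2 := by positivity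
    calc (2 : ℝ) ^ j * (2 * R * m * n / (a * a) + ((a : ℝ) - 1 + 2 * R))
        ≤ (2 : ℝ) ^ j * (2 ^ 12 * R * m * n / s ^ 2) :=
          mul_le_mul_of_nonneg_left hmain (by positivity)
      _ ≤ (64 * m / s) * (2 ^ 12 * R * m * n / s ^ 2) := mul_le_mul_of_nonneg_right hj2 h4
      _ = 2 ^ 18 * R * m ^ 2 / s ^ 3 * n := by
          field_simp
          norm_num
  · -- the exponential
    set x : ℝ := (s / (64 * m)) ^ 2 * m with hx
    have hx0 : 0 ≤ x := by positivity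
    have hx1 : x = s ^ 2 / (4096 * m) := by
      rw [hx]
      field_simp
      norm_num
    have hx3 : 2 ^ 24 * (m : ℝ) ≤ x ^ 3 := by
      rw [hx1, div_pow, le_div_iff₀ (by positivity)]
      have h4 : (2 ^ 30 * (m : ℝ) ^ 2) ^ 2 ≤ (s ^ 3) ^ 2 := pow_le_pow_left₀ (by positivity) h3 2
      have h5 : (s ^ 2) ^ 3 = (s ^ 3) ^ 2 := by ring
      rw [h5]
      refine le_trans (le_of_eq ?_) h4
      ring_nf
    have h18 : x ^ 18 / (Nat.factorial 18 : ℝ) ≤ Real.exp x := Real.pow_div_factorial_le_exp x hx0 18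
    have hx18 : (2 ^ 24 * (m : ℝ)) ^ 6 ≤ x ^ 18 := by
      calc (2 ^ 24 * (m : ℝ)) ^ 6 ≤ (x ^ 3) ^ 6 := pow_le_pow_left₀ (by positivity) hx3 6
        _ = x ^ 18 := by ring
    have hf : (Nat.factorial 18 : ℝ) ≤ 2 ^ 53 := by
      norm_num [Nat.factorial]
    have hf0 : (0 : ℝ) < (Nat.factorial 18 : ℝ) := by positivity
    have hm6 : (1 : ℝ) ≤ (m : ℝ) ^ 6 := by
      have : (1 : ℝ) ≤ m := by linarith
      exact one_le_pow₀ this
    have hlow : 4 * (8 * ((m : ℝ) ^ 3) ^ 2 + 1) ≤ Real.exp x := by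
      refine le_trans ?_ h18
      rw [le_div_iff₀ hf0]
      refine le_trans ?_ hx18
      calc 4 * (8 * ((m : ℝ) ^ 3) ^ 2 + 1) * (Nat.factorial 18 : ℝ)
          ≤ 4 * (8 * ((m : ℝ) ^ 3) ^ 2 + 1) * 2 ^ 53 :=
            mul_le_mul_of_nonneg_left hf (by positivity)
        _ ≤ 36 * (m : ℝ) ^ 6 * 2 ^ 53 := by
            refine mul_le_mul_of_nonneg_right ?_ (by positivity)
            have : ((m : ℝ) ^ 3) ^ 2 = (m : ℝ) ^ 6 := by ring
            rw [this]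
            linarith
        _ ≤ (2 ^ 24 * (m : ℝ)) ^ 6 := by
            rw [mul_pow]
            have h7 : (36 : ℝ) * 2 ^ 53 ≤ (2 ^ 24) ^ 6 := by norm_num
            nlinarith
    have hexp : 0 < Real.exp (-x) := Real.exp_pos _
    calc 4 * Real.exp (-x) * (8 * ((m : ℝ) ^ 3) ^ 2 + 1)
        = Real.exp (-x) * (4 * (8 * ((m : ℝ) ^ 3) ^ 2 + 1)) := by ring
      _ ≤ Real.exp (-x) * Real.exp x := mul_le_mul_of_nonneg_left hlow hexp.le
      _ = 1 := by rw [← Real.exp_add, neg_add_cancel, Real.exp_zero]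
  · linarith [show (2 : ℝ) ^ 4 ≤ 2 ^ 30 by norm_num]

end Pool.Agent.helper55.NO
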